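import Pool.Agent.helper69.AD.GS2

open scoped MatrixGroups LinearAlgebra.Projectivization
open Matrix UpperHalfPlane

namespace AdSBend

theorem PN1 (hGM3 : GM3_stmt) (hBD12 : BD12_stmt) : PN1_stmt := by
  intro Γ hΓ S p hp q hq hne hne'
  obtain ⟨-, -, -, -, -, -, -, h8, -⟩ := hBD12
  have hp' := S.swap p hp
  have hq' := S.swap q hq
  have cp := S.closed p hp
  have cq := S.closed q hq
  have cp' := S.closed _ hp'
  have cq' := S.closed _ hq'
  simp only at cp' cq'
  have key := hGM3 Γ hΓ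
  obtain ⟨p1, p2⟩ := p
  obtain ⟨q1, q2⟩ := q
  simp only at *
  refine h8 (p1, p2) (q1, q2) cp.1 cq.1 ?_ ?_ ?_ ?_ (S.unlinked _ hp _ hq)
  · rintro (h : p1 = q1)
    subst h
    exact hne (by rw [key _ _ _ cp cq])
  · rintro (h : p1 = q2)
    subst h
    exact hne' (by rw [key _ _ _ cp cq'])
  · rintro (h : p2 = q1)
    subst h
    exact hne' (by rw [key _ _ _ cp' cq])
  · rintro (h : p2 = q2)
    subst h
    exact hne (by rw [key _ _ _ cp' cq'])

end AdSBend
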