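import Pool.Agent.helper69.AD.GS2

open scoped MatrixGroups LinearAlgebra.Projectivization
open Matrix UpperHalfPlane

namespace AdSBend

theorem PN4 (hBD12 : BD12_stmt) (hPT1 : PT1_stmt) (hPT3 : PT3_stmt) (hPN1 : PN1_stmt) :
    PN4_stmt := by
  intro Γ hΓ S p hp q hq z hz
  obtain ⟨hFs, hFI, hII, hItr, hIF, hIa, hIFn, -⟩ := hBD12
  have hside : ∀ x y : Bd, side z y x = - side z x y := fun x y => (hPT1 1 z x y).2.2.2
  obtain ⟨hoff, hfr, hmin⟩ := hz
  have hfr0 : side z p.1 p.2 < 0 := hfr
  constructor
  · rintro ⟨-, hqf, hqm⟩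
    have hqf0 : side z q.1 q.2 < 0 := hqf
    by_cases hqp : q = p
    · exact Or.inl hqp
    · right
      have hne' : q ≠ (p.2, p.1) := by
        intro h
        have h1 : q.1 = p.2 := by rw [h]
        have h2 : q.2 = p.1 := by rw [h]
        rw [h1, h2, hside] at hqf0
        linarith
      have hF : Facing p q := by
        rcases hPN1 Γ hΓ S p hp q hq hqp hne' with h | h | h | h
        · exact absurd h (hmin q hq hqf)
        · exact absurd h (hqm p hp hfr)
        · exact h
        · exfalso
          have h1 : Inside (p.2, p.1) q := (hFI (p.2, p.1) (q.2, q.1)).1 h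
          have h2 := hPT3.1 (p.2, p.1) q z h1 (by simp only; rw [hside]; linarith)
          linarith
      refine ⟨hp, hq, hF, ?_⟩
      intro r hr hpr hrq
      have hrpos : 0 < side z r.1 r.2 := by
        rcases lt_trichotomy (side z r.1 r.2) 0 with h | h | h
        · exact absurd hpr (hmin r hr h)
        · exact absurd h (hoff r hr)
        · exact h
      have h1 : FrontPt (r.2, r.1) z := by
        show side z r.2 r.1 < 0
        rw [hside]; linarith
      exact hqm _ (S.swap r hr) h1 ((hFI q r).1 ((hFs r q).1 hrq))
  · rintro (h | h)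
    · subst h
      exact ⟨hoff, hfr, hmin⟩
    · obtain ⟨-, -, hF, hsep⟩ := h
      have hqf : FrontPt q z := by
        rcases lt_trichotomy (side z q.1 q.2) 0 with h | h | h
        · exact h
        · exact absurd h (hoff q hq)
        · exfalso
          have h1 : FrontPt (q.2, q.1) z := by
            show side z q.2 q.1 < 0
            rw [hside]; linarith
          exact hmin _ (S.swap q hq) h1 ((hFI p q).1 hF)
      refine ⟨hoff, hqf, ?_⟩
      intro r hr hrf hqr
      have hrf0 : side z r.1 r.2 < 0 := hrf
      by_cases hrp : r = p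
      · subst hrp
        exact hIFn q r ⟨hqr, (hFs r q).1 hF⟩
      · have hne' : r ≠ (p.2, p.1) := by
          intro h
          have h1 : r.1 = p.2 := by rw [h]
          have h2 : r.2 = p.1 := by rw [h]
          rw [h1, h2, hside] at hrf0
          linarith
        rcases hPN1 Γ hΓ S p hp r hr hrp hne' with h | h | h | h
        · exact hmin r hr hrf h
        · exact hIFn q p ⟨hItr _ _ _ hqr h, (hFs p q).1 hF⟩
        · exact hsep (r.2, r.1) (S.swap r hr) ((hFI p r).1 h)
            ((hFs _ _).1 ((hFI q (r.2, r.1)).2 hqr))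
        · have h1 : Inside (p.2, p.1) r := (hFI (p.2, p.1) (r.2, r.1)).1 h
          have h2 := hPT3.1 (p.2, p.1) r z h1 (by simp only; rw [hside]; linarith)
          linarith

end AdSBend
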